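import Pool.Agent.W_MP_6d5819_gt.Own

set_option autoImplicit false

open Bundle
open scoped Manifold ContDiff
open Pool.Agent.W_MP_6d5819_gt

namespace Pool.Agent.Results.MP_6d5819_gt.TwoNumber

/-- For every compact connected Riemannian symmetric space `M` (not necessarily simply connected)
the two-number is at most the total mod 2 Betti number; and if the two-number is larger than the
total real Betti number, then the integral homology of `M` has an element of order two. -/
theorem result (d : ℕ) (M : Type) [EMetricSpace M]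
    [ChartedSpace (EuclideanSpace ℝ (Fin d)) M]
    [IsManifold (𝓡 d) ∞ M]
    [RiemannianBundle (fun x : M ↦ TangentSpace (𝓡 d) x)]
    [IsContMDiffRiemannianBundle (𝓡 d) ∞ (EuclideanSpace ℝ (Fin d))
      (fun x : M ↦ TangentSpace (𝓡 d) x)]
    [IsRiemannianManifold (𝓡 d) M]
    [CompactSpace M] [ConnectedSpace M]
    (hsym : ∀ x : M, ∃ s : M → M, IsSymmetryAt d M x s) :
    twoNumber d M ≤ ((∑ i ∈ Finset.range (d + 1), betti (ZMod 2) M i : ℕ) : ℕ∞) ∧
    (((∑ i ∈ Finset.range (d + 1), betti ℝ M i : ℕ) : ℕ∞) < twoNumber d M →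
      ∃ i : ℕ, ∃ g : ((((AlgebraicTopology.singularHomologyFunctor (ModuleCat.{0} ℤ) i).obj
            (ModuleCat.of ℤ ℤ)).obj (TopCat.of M) : ModuleCat.{0} ℤ) : Type),
        addOrderOf g = 2) := by
  have htop : ∀ x y : M, edist x y ≠ ⊤ := edist_ne_top_of_connected M
  have key : ∀ A : Finset M, IsAntipodal d A → _ := fun A hA =>
    @own_metric d M (EMetricSpace.toMetricSpace htop) _ _ _ _ _ _ _ hsym A hA
  constructor
  · refine iSup_le fun A => ?_
    exact_mod_cast (key A.1 A.2).1
  · intro h
    obtain ⟨A, hA⟩ := lt_iSup_iff.1 h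
    exact (key A.1 A.2).2 (by exact_mod_cast hA)

end Pool.Agent.Results.MP_6d5819_gt.TwoNumber
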